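import Mathlib

/-!
Degrees of polynomials in the elementary symmetric polynomials.
-/

set_option autoImplicit false

namespace Pool.Agent.W200.IK

open MvPolynomial

section esymmdeg

variable {k σ : Type} [Field k] [Fintype σ]

/-- The elementary symmetric polynomials are homogeneous. -/
theorem esymm_hom (n : ℕ) : (esymm σ k n).IsHomogeneous n := by
  classical
  unfold esymm
  refine IsHomogeneous.sum _ _ _ fun s hs => ?_
  have h1 := IsHomogeneous.prod s (fun i => (X i : MvPolynomial σ k)) (fun _ => 1)
    (fun i _ => isHomogeneous_X k i)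
  rw [Finset.sum_const, (Finset.mem_powersetCard.1 hs).2, smul_eq_mul, mul_one] at h1
  exact h1

/-- The substitution of the elementary symmetric polynomials. -/
noncomputable def Φ (k σ : Type) [Field k] [Fintype σ] (n : ℕ) :
    MvPolynomial (Fin n) k →ₐ[k] MvPolynomial σ k :=
  aeval fun i : Fin n => esymm σ k (i + 1)

/-- The weight of an exponent. -/
def wt {n : ℕ} (e : Fin n →₀ ℕ) : ℕ := ∑ i, (i.1 + 1) * e i

theorem le_wt {n : ℕ} (e : Fin n →₀ ℕ) : (e.sum fun _ a => a) ≤ wt e := by
  rw [Finsupp.sum_fintype _ _ (fun _ => rfl)]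
  exact Finset.sum_le_sum fun i _ => Nat.le_mul_of_pos_left _ (Nat.succ_pos _)

theorem phi_mono {n : ℕ} (e : Fin n →₀ ℕ) (a : k) :
    (Φ k σ n (monomial e a)).IsHomogeneous (wt e) := by
  unfold Φ
  rw [aeval_monomial, Finsupp.prod_fintype _ _ (fun i => pow_zero _)]
  have h1 := IsHomogeneous.prod Finset.univ (fun i : Fin n => (esymm σ k (i.1 + 1)) ^ e i)
    (fun i => (i.1 + 1) * e i) (fun i _ => (esymm_hom (k := k) (σ := σ) _).pow _)
  exact h1.C_mul a

/-- The part of weight `m`. -/
noncomputable def part {n : ℕ} (m : ℕ) (P : MvPolynomial (Fin n) k) : MvPolynomial (Fin n) k :=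
  ∑ e ∈ P.support, if wt e = m then monomial e (coeff e P) else 0

theorem phi_part {n : ℕ} (m : ℕ) (P : MvPolynomial (Fin n) k) :
    homogeneousComponent m (Φ k σ n P) = Φ k σ n (part m P) := by
  classical
  unfold part
  nth_rewrite 1 [P.as_sum]
  rw [map_sum, map_sum, map_sum]
  refine Finset.sum_congr rfl fun e _ => ?_
  rw [homogeneousComponent_of_mem (phi_mono e (coeff e P))]
  by_cases h : wt e = m
  · rw [if_pos h, if_pos h.symm]
  · rw [if_neg h, if_neg (Ne.symm h), map_zero]

theorem part_coeff {n : ℕ} (P : MvPolynomial (Fin n) k) (e : Fin n →₀ ℕ) :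
    coeff e (part (wt e) P) = coeff e P := by
  classical
  unfold part
  rw [coeff_sum, Finset.sum_eq_single e]
  · rw [if_pos rfl, coeff_monomial, if_pos rfl]
  · intro e' _ hne
    by_cases h : wt e' = wt e
    · rw [if_pos h, coeff_monomial, if_neg hne]
    · rw [if_neg h, coeff_zero]
  · intro h
    rw [if_pos rfl, coeff_monomial, if_pos rfl]
    exact notMem_support_iff.1 h

/-- Substituting the elementary symmetric polynomials does not lower the degree. -/
theorem totalDegree_le_phi (P : MvPolynomial (Fin (Fintype.card σ)) k) :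
    P.totalDegree ≤ (Φ k σ (Fintype.card σ) P).totalDegree := by
  classical
  rw [totalDegree]
  refine Finset.sup_le fun e he => ?_
  refine (le_wt e).trans ?_
  by_contra hlt
  have h1 := homogeneousComponent_eq_zero (wt e) (Φ k σ (Fintype.card σ) P) (not_le.1 hlt)
  rw [phi_part] at h1
  have hinj : Function.Injective (Φ k σ (Fintype.card σ)) := by
    have h2 := esymmAlgHom_injective (σ := σ) (R := k) (n := Fintype.card σ) le_rfl
    intro a b hab
    apply h2
    apply Subtype.ext
    rw [esymmAlgHom_apply, esymmAlgHom_apply]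
    exact hab
  have h3 : part (wt e) P = 0 := hinj (h1.trans (map_zero _).symm)
  have h4 := part_coeff P e
  rw [h3, coeff_zero] at h4
  exact (mem_support_iff.1 he) h4.symm

end esymmdeg

section coeffs

variable {k σ : Type} [Field k]

/-- Degrees of the coefficients of a product of linear factors. -/
theorem coeff_prod_le (s : Finset (MvPolynomial σ k)) (d : ℕ) (hs : ∀ q ∈ s, q.totalDegree ≤ d)
    (e : ℕ) : ((∏ q ∈ s, (Polynomial.X - Polynomial.C q)).coeff e).totalDegree ≤ s.card * d := by
  classical
  induction s using Finset.induction_on generalizing e with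
  | empty =>
    rw [Finset.prod_empty, Polynomial.coeff_one]
    by_cases h : e = 0
    · rw [if_pos h, totalDegree_one]
      exact Nat.zero_le _
    · rw [if_neg h, totalDegree_zero]
      exact Nat.zero_le _
  | insert q s hq ih =>
    have ih' := fun e => ih (fun q' hq' => hs q' (Finset.mem_insert_of_mem hq')) e
    have hqd := hs q (Finset.mem_insert_self q s)
    rw [Finset.prod_insert hq, Finset.card_insert_of_notMem hq, sub_mul, Polynomial.coeff_sub,
      Polynomial.coeff_C_mul]
    refine (totalDegree_sub _ _).trans (max_le ?_ ?_)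
    · cases e with
      | zero =>
        rw [Polynomial.coeff_X_mul_zero, totalDegree_zero]
        exact Nat.zero_le _
      | succ e =>
        rw [Polynomial.coeff_X_mul]
        exact (ih' e).trans (Nat.mul_le_mul_right _ (Nat.le_succ _))
    · refine (totalDegree_mul _ _).trans ?_
      have h1 := ih' e
      have h2 : (s.card + 1) * d = s.card * d + d := by ring
      omega

end coeffs

end Pool.Agent.W200.IK
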