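import Mathlib
import Pool.Agent.W200.IK.DB
import Pool.Agent.W200.IH.TH
import Pool.Agent.W200.IJ.SE
import Pool.Agent.W200.IJ.SF
import Pool.Agent.W200.IJ.SG

/-!
Generic regular solutions of embedding problems with kernel a wreath product with action, in
positive characteristic, with an explicit bound.
-/

set_option autoImplicit false

namespace Pool.Agent.W200.IK

open MvPolynomial
open Pool.Agent.H391R2 (Wr)
open Pool.Agent.H391R2.T4 (orb y_mem_orb YData EG)
open Pool.Agent.W200.IG (basis_vars)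
open Pool.Agent.W200.IH (Ix)
open Pool.Agent.W200.IJ

set_option linter.unusedSectionVars false

open Classical in
/-- Generic regular solutions. -/
theorem gen_eg_bd (p : ℕ) [Fact p.Prime] (k M G : Type) [Field k] [Infinite k] [CharP k p]
    [Field M] [Algebra k M] [FiniteDimensional k M] [IsGalois k M] [Group G] [Finite G]
    (φ : (M ≃ₐ[k] M) →* MulAut G) :
    ∀ n ≥ bd (Nat.card G) (Nat.card (M ≃ₐ[k] M)), 3 ≤ n ∧
      ∃ (V : Type) (_ : Finite V)
      (E : Type) (_ : Field E) (_ : Algebra (MvPolynomial V k) E)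
      (_ : IsFractionRing (MvPolynomial V k) E) (_ : Algebra k E)
      (_ : IsScalarTower k (MvPolynomial V k) E)
      (F : Type) (_ : Field F) (_ : Algebra E F) (_ : Algebra M F) (_ : Algebra k F)
      (_ : IsScalarTower k E F) (_ : IsScalarTower k M F) (_ : FiniteDimensional E F)
      (_ : IsGalois E F) (γ : (F ≃ₐ[E] F) ≃* EG φ n),
      (∀ (σ : F ≃ₐ[E] F) (x : M), σ (algebraMap M F x) = algebraMap M F ((γ σ).right x)) ∧
      (∀ y : F, IsAlgebraic M y → y ∈ Set.range (algebraMap M F)) := by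
  have := Fintype.ofFinite G
  have hcM : CharP M p := charP_of_injective_algebraMap (algebraMap k M).injective p
  obtain ⟨y, hYD, hy, hyd⟩ := exists_yp' φ
  obtain ⟨Ψ, hm, hdeg, hΨ⟩ := H391R2.T4.exists_psi y
  obtain ⟨T, hTdef⟩ : ∃ T : ℕ, T = (Fintype.card G).factorial * (Fintype.card G) ^ 2 := ⟨_, rfl⟩
  have hT : ∀ e, (Ψ.coeff e).totalDegree ≤ T := fun e => by
    rw [hTdef]
    exact psi_deg y _ hyd hΨ e
  have hd0 : 0 < (orb y).card := Finset.card_pos.2 ⟨_, y_mem_orb y⟩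
  obtain ⟨m₀, hm₀def⟩ : ∃ m₀ : ℕ, m₀ = Nat.card (Abelianization G) + 2 := ⟨_, rfl⟩
  obtain ⟨gen, hgen⟩ : ∃ gen : Fin m₀ → Abelianization G, Function.Surjective gen := by
    let e : Abelianization G ≃ Fin (Nat.card (Abelianization G)) := Finite.equivFin _
    have h1 : Function.Injective (fun a => Fin.castLE (show Nat.card (Abelianization G) ≤ m₀ by
        omega) (e a)) :=
      (Fin.castLE_injective _).comp e.injective
    exact ⟨_, Function.invFun_surjective h1⟩
  obtain ⟨m, ⟨eQ⟩, hmle⟩ : ∃ m : ℕ, Nonempty (((M ≃ₐ[k] M) × Fin m₀) ≃ Fin (m + 2)) ∧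
      m + 2 ≤ Nat.card (M ≃ₐ[k] M) * (Nat.card G + 2) := by
    have h0 : Nat.card ((M ≃ₐ[k] M) × Fin m₀) = Nat.card (M ≃ₐ[k] M) * m₀ := by
      rw [Nat.card_prod, Nat.card_fin]
    have h2 : 0 < Nat.card (M ≃ₐ[k] M) := Nat.card_pos
    have h1 : 2 ≤ Nat.card ((M ≃ₐ[k] M) × Fin m₀) := by
      rw [h0]
      nlinarith
    have h3 : Nat.card (Abelianization G) ≤ Nat.card G :=
      Nat.card_le_card_of_surjective (QuotientGroup.mk (s := commutator G))
        QuotientGroup.mk_surjective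
    refine ⟨Nat.card ((M ≃ₐ[k] M) × Fin m₀) - 2, ⟨(Finite.equivFin _).trans (finCongr ?_)⟩, ?_⟩
    · omega
    · rw [Nat.sub_add_cancel h1, h0]
      exact Nat.mul_le_mul_left _ (by omega)
  intro n hn
  obtain ⟨hn3, J, D, hJM, hJ1, hM3, hTM, hDM⟩ := numbers3 (Nat.card G) (Nat.card (M ≃ₐ[k] M))
    (orb y).card T (m + 2) hd0 (by
      rw [Nat.card_eq_fintype_card]
      exact card_orb_le y) (by
      rw [hTdef, Nat.card_eq_fintype_card]) hmle n hn
  refine ⟨hn3, ?_⟩
  obtain ⟨d, hd, hSI, hdM, hsep⟩ := exists_data_semi φ y hy J D hJ1 hM3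
  obtain ⟨A, a1, a2, ι, a3, a4, bA, a5, σ, hχ⟩ := exists_torsor1 p G
  let fk : ZMod p →+* M := ZMod.castHom dvd_rfl M
  let K := AlgebraicClosure M
  let V := (((M ≃ₐ[k] M) × Fin m₀) × ι) ⊕ (Unit ⊕ Ix G (m + 2))
  let F := FractionRing (MvPolynomial V K)
  let N := AlgebraicClosure F
  have hT1 : IsScalarTower M K N := inferInstance
  have hT2 : IsScalarTower k M N := inferInstance
  have hcN : CharP N p := charP_of_injective_algebraMap (algebraMap M N).injective p
  let X : V → N := fun v : V => algebraMap F N (algebraMap (MvPolynomial V K) F (X v))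
  have hX : IsTranscendenceBasis K X := basis_vars
  let x : ((M ≃ₐ[k] M) × Fin m₀) → ι → N := fun q i => X (Sum.inl (q, i))
  let ξ : Unit ⊕ Ix G (m + 2) → N := fun i => X (Sum.inr i)
  have hXx : X = Sum.elim (fun p => x p.1 p.2) ξ := by
    funext v
    rcases v with v | v <;> rfl
  obtain ⟨V', iV, Z, r, vv, hZ, hr, hv, h1, h2, h3⟩ := twist_semi φ y d hd hSI Ψ hm hΨ T hT
    hsep D hJM hTM hdM hn3
    (by rw [hdeg]; exact hDM) (K := K) (N := N) bA fk eQ σ hχ x ξ
    (by rw [← hXx]; exact hX) gen (by rw [hgen.range_eq, Subgroup.closure_univ])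
  obtain ⟨E, b1, b2, b3, b4, b5, F', b6, b7, b8, b9, b10, b11, b12, b13, γ, h4, h5⟩ :=
    arith2 (K := K) G φ n Z hZ r hr vv hv h1 h2 h3
  exact ⟨V', iV, E, b1, b2, b3, b4, b5, F', b6, b7, b8, b9, b10, b11, b12, b13, γ, h4, h5⟩

end Pool.Agent.W200.IK
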